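import Mathlib
import Pool.Agent.Run7.h879.HA.Bridge
import Pool.Agent.TH170.GS.TB2

/-!
# The Tate conjecture for singular varieties over finite fields: one half of all slope types of
every CM field of degree `2 r ^ k`

Over an algebraic closure of the field with `p` elements each abelian variety is isogenous to the
reduction of an abelian variety of CM type (Honda, Tate). So an abelian variety over the field with
`p ^ a` elements is modelled by `RedAV`: a finite product of CM types `(E i, Φ i)` with Weil numbers
`π i ∈ E i` that satisfy the formula of Shimura and Taniyama; its cohomology of degree `n`, with
coefficients in an algebraically closed field `Ω`, consists of the alternating `n`-forms on `Ω ⊗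
H_1`, on which the Frobenius endomorphism acts by `π`. We fix an isomorphism `ν` of the algebraic
closure of `ℚ_p` with `ℂ`; it defines a `p`-adic valuation of `ℂ`, with the value one at `p`.

Let `K i` be finitely many CM fields, of degrees `2 g i`, that are pairwise independent: for `i ≠ k`
and all complex embeddings `φ` of `K i` and `ψ` of `K k` some automorphism of `ℂ` is the identity on
`φ (K i)` and the complex conjugation on `ψ (K k)` (this is no condition for one field). Nothing is
assumed about their Galois groups. Let `M i` be a function with integral values on the complex
embeddings of `K i`, invariant under complex conjugation (the weights). A CM type `Φ i` of `K i` (a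
choice of one element out of each complex conjugate pair of embeddings; there are `2 ^ (g i)`
types), `M i` and a real number `κ ≠ 0` prescribe the slopes `(a + κ M) / 2` (at the embeddings in
`Φ i`) and `(a - κ M) / 2` (outside of `Φ i`) of a Weil number in `K i`. If `p` splits completely in
`K i` then, by Honda and Tate, all slopes with rational values between `0` and `a` that are
symmetric in this way occur for abelian varieties. The case `M = 1`, `κ = a` is the ordinary case.
Slopes are rational, so integral weights `M` are no restriction.

For a family of types `Φ i` let `𝒞` (`OfTypes`) be the class of the abelian varieties `Y` each of
whose factors is supersingular or has a Frobenius endomorphism some power of which is, for some `i`,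
a Weil number in `K i` with the slopes prescribed by `Φ i`, `M i` and some real number `κ i ≠ 0`
(which depends only on `Y` and `i`). So `Y` is, over an algebraic closure, isogenous to a product of
powers of one abelian variety for each `i`, with the given slopes, and of a supersingular one.

`Homology Ω V` are data of motivic homology `M X i j = H_i^M(X, ℚ(j)) = CH_j(X, i - 2 j) ⊗ ℚ` and of
`ℓ`-adic homology `E X i j = H_i(X, ℚ_ℓ(j))` (coefficients extended to `Ω`) of schemes `X` of finite
type over a finite field (the elements of `V`), with the Frobenius and the regulator. For a family
of types let `𝒢` be the smallest class (`Generated`) of such schemes that contains those with the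
homology groups of abelian varieties in `𝒞` (`IsAbelianOfTypes`), that is closed under direct
summands of finite sums of twists of motives, and that contains all of a closed subscheme `Z` of
`X`, `X` and `X ∖ Z` if it contains two of them. It contains for instance all products of varieties
in `𝒞`, all products of curves with Jacobians in `𝒞` and of open subsets of such curves, symmetric
powers of them, and the singular and the open varieties with a stratification by such varieties.

Let `𝒮` (`Spread`) be the smallest class of schemes that contains `𝒢`, all open subschemes (with an
arbitrary complement) and all images under proper morphisms of its members, the schemes that are the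
union of a closed and an open member, and the schemes whose motives are direct summands of sums of
twists of motives of members. For example it contains all varieties dominated by varieties in `𝒢`,
and all varieties, singular or not, with a stratification by open subvarieties of them.

The property `Q` (`Holds`) of a family of types: for all varieties `X` in `𝒮`, smooth or not, proper
or not, and all `j` **the map `c_j` from the Chow group of the cycles of dimension `j` to the space
of the invariant elements of the étale homology group `H_(2 j)(X, ℚ_ℓ(j))` is surjective** (with
coefficients `Ω`), and the eigenvalue one of the Frobenius on it is semisimple (`IsOnto T X j`).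

Properties of the theory of cycles that are used for the abelian varieties (`IsChow`, `IsMotivic`):
Poincaré duality, the formal properties of correspondences, the nilpotence of homologically trivial
correspondences (Kimura), the operation of the Frobenius endomorphism on higher Chow groups, the
vanishing of the higher rational `K`-groups of a finite field (Quillen), and the algebraicity of the
classes in `Alg` (of which only products of classes of divisors matter here, theorem of Tate). The
passage from the Tate conjecture to all degrees and to the class `Generated` is due to Soulé,
Geisser, Kahn and Jannsen; it was formalized in the starting files.

**The theorem.** Let `E` be **any CM field of degree `2 g = 2 r ^ k`**, `r` a prime number, of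
degree at least `16` if `r = 2`. Nothing is assumed about the Galois group of the normal closure of
`E`, and nothing about the subfields of `E`.

* (`HalfOfAll`) For all weights `M` (odd if `r = 2`; if `r` is odd then `r` may divide some, but not
  all of them) the property `Q` is true for **at least one half of all `2 ^ g` types** of `E`.
* (`MostWithWeightsOne`) For the weights `M = 1` (for instance in the ordinary case) it is true for
  at least `(1 - 1 / r) 2 ^ g` of the types.
* (`OneOfTwo`) There is a set `B` of embeddings of `E`, stable under complex conjugation, such that
  for **every** type `Φ` it is true for `Φ` or for the symmetric difference of `Φ` and `B`.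
* (`SixteenPercent`) There is a number `g₀` such that for every CM field that is **abelian over
  `ℚ`**, of any degree `2 g ≥ 2 g₀`, and all odd weights it is true for at least 16 percent of all
  `2 ^ g` types; again nothing is assumed on the subfields.

All this is proved more generally for finitely many pairwise independent fields `K i`; the
proportions are then multiplied. Bounds of other starting files for the number of the exceptional
types can say nothing for these fields if they have many CM subfields (for instance for the
multiquadratic ones, where one half is the best possible proportion for the types without
relations).

The proof: if the types have no relations then all relations between the Frobenius eigenvalues of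
`Y` come from complex conjugate pairs and from supersingular factors, and the Tate classes are
generated by classes of divisors (`TH170/GS`, `TH117` of the starting files). The proportion of the
types without relations (`NoRelations`) is at least one half by the theorem of the starting files
(`Q29/DP`, `Q29/EP`), which was used there for other conjectures.
-/

set_option autoImplicit false

namespace Pool.Agent.Results.MP_40dc3c_ag.HalfOfAllTypes

open NumberField Module Pool.Agent.H204R3.CM Pool.Agent.H977R3.CM Pool.Agent.TH170
  Pool.Agent.Q29.EP Pool.Agent.Run7.h879.HA

open Pool.Agent.W495.TA Pool.Agent.W495.FM

/-- The Tate conjecture for the cycles of all dimensions for all varieties, singular or not, in the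
class `Spread` of the schemes generated by abelian varieties with the slope types `Φ`. -/
def Holds {p : ℕ} [Fact p.Prime] (ν : PadicAlgCl p ≃+* ℂ) {I : Type} (K : I → Type)
    [∀ i, Field (K i)] (M : ∀ i, (K i →+* ℂ) → ℤ) (Φ : ∀ i, Set (K i →+* ℂ)) : Prop :=
  ∀ (Ω : Type) [Field Ω] [IsAlgClosed Ω] [CharZero Ω] (V : Type) (T : Homology Ω V),
    IsHomology T → HasWeights T → ∀ X : V,
      Spread T (Generated T (GS.IsAbelianOfTypes ν K M Φ T)) X → ∀ j : ℤ, IsOnto T X j

/-- The property `Holds` of the families of slope types. -/
def Q : TypeProperty := fun _ _ ν _ _ K _ _ _ M Φ => Holds ν K M Φ

theorem holds_of {p : ℕ} [Fact p.Prime] {ν : PadicAlgCl p ≃+* ℂ} {I : Type} (K : I → Type)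
    [∀ i, Field (K i)] (M : ∀ i, (K i →+* ℂ) → ℤ) (Φ : ∀ i, Set (K i →+* ℂ))
    (h : ∀ Y : RedAV p ν, GS.OfTypes K M Φ Y → ∃ Z : RedAV p ν,
      TH117.BL.HasElementaryRelations Z ∧ TH117.BL.IsPowersTimesSupersingular Z Y) :
    Holds ν K M Φ := fun _ _ _ _ _ _ hT hW _ hX j => GS.onto_types h hT hW hX j

/-- **The Tate conjecture for all singular varieties generated by abelian varieties
with one half of all slope types of every CM field of degree `2 r ^ k`.** -/
theorem result : HalfOfAll Q ∧ MostWithWeightsOne Q ∧ OneOfTwo Q ∧ SixteenPercent Q :=
  four (of_elementary fun _ _ _ _ _ K _ _ _ M Φ h => holds_of K M Φ h)

end Pool.Agent.Results.MP_40dc3c_ag.HalfOfAllTypes
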