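import Pool.Agent.Run7.h908.JP.Fib

/-!
# Divisor classes on all models of twisted fibre products of families of curves

Let `k` be a finite field of odd characteristic with `q` elements and `K = k(t)`. Let `n ≥ 1` and, for
`i = 1, ..., n`, let `f_i` in `k[t][x]` be monic of degree `2 g_i + 1` in `x`, `g_i ≥ 1`, without a term
in `x ^ (2 g_i)`, the coefficient of `x ^ j` of degree at most `2 N_i (2 g_i + 1 - j)` in `t`, `N_i ≥ 1`,
such that the discriminants of the `f_i` are squarefree and pairwise coprime and the reductions of the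
`f_i` at infinity are irreducible. For `D` in `k[t]`, squarefree and prime to the discriminants, consider
ALL the varieties `X` over `k`, singular or not, proper or not, of dimension `n + 1`, with a morphism to
the projective line whose generic fibre is the product over `K` of the `n` curves `D y ^ 2 = f_i(x)`; for
instance the fibre product over the line of the surfaces `D(t) y ^ 2 = f_i(x, t)`, which is singular.

The surjectivity of the cycle map `c_n` into `H_(2n)(X, Q_l(n))` for these `X` depends only on the generic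
fibre: the group does not change if a closed subset of codimension two is removed, and the fibres over
closed points of the line contribute only cycle classes. By the Leray spectral sequence over an open
part of the line, the theory of weights and the theorem of Zarhin on divisors of the generic fibre the
invariant classes are those of cycles if and only if the Tate module of the `l`-primary Selmer group of the
Albanese variety `A_D` of the generic fibre (the product of the Jacobians `J_i` of the curves
`D y ^ 2 = f_i(x)`) comes from `A_D(K)`; the dimension of the space of the invariant classes outside of the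
obvious ones is the `Z_l`-rank of this module. (This translation is not formalised.)

Theorem. Fix `k`, the `f_i` and the leading coefficient of `D`, and let the degree of `D` tend to
infinity.
1. For every `D` the group `A_D(K)` has no points of order two, and for all `l` the Selmer group
   `Sel(J_i, 2 ^ l)` is finite with at most `2 ^ (l d_i)` elements, `2 ^ (d_i) = #Sel(J_i, 2)`; so the space
   of the classes in question has dimension at most `d_1 + ... + d_n` for the prime two.
2. The sum `d_1 + ... + d_n` is `1.2645... n` on average, and `(d_1, ..., d_n)` has the limit law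
   `α(d_1) ⋯ α(d_n)` with all means of functions of exponential growth.
3. For at least `0.2097 ^ n` of all the `D` all the groups `Sel(J_i, 2 ^ l)` are zero, `A_D(K)` is
   uniquely divisible by two, and the 2-primary part of the Tate-Shafarevich group of `A_D` is zero. So
   `c_n` is surjective for all the varieties `X` above (for the prime two by the above and for all primes by
   the theorem of Kato and Trihan).
4. If the characteristic is larger than `2 g + 1`, then for every nonzero `Δ` a positive proportion of
   all `f` of genus `g` and height `2 N`, `N` to infinity, is in the family with discriminant prime to `Δ`.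

The proof is project JPL (helper784: the joint law, with parts by helpers 56, 160, 303, 518, 704, 803,
908, 957; projects PRL (helper286) and TG (helper784)), and the bound for `Sel(J, 2 ^ l)` of helper886.
-/

set_option autoImplicit false
set_option linter.all false

namespace Pool.Agent.Results.MP_40dc3c_ag.ModelsOfFibreProducts

open Polynomial Filter IsDedekindDomain
open scoped Classical Topology
open Pool.Agent.N874.Jac (J mapJ Cochain Cocycle Coboundary power TrivialAtPrimes TrivialOver
  UniquelyTwoDivisible ShaTwoTrivial)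
open Pool.Agent.TH115.GD (CompInf)
open Run7.h784.JPH (discriminant HasHeight atInfinity InFamily twist Twists weight alpha)

section groups

variable (k : Type) [Field k] {K : Type} [Field K] [Algebra k[X] K] [IsFractionRing k[X] K] (F : K[X])

/-- The continuous cocycles of the absolute Galois group of `K = k(t)` with values in `J[n]`, `J` the
Jacobian of `y ^ 2 = F(x)` (written multiplicatively), whose class in `H ^ 1 (K_v, J)` is zero for all the
places `v` of `K`. -/
structure SelmerCocycle (n : ℕ) (c : Cochain F) : Prop where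
  cocycle : Cocycle c
  torsion : ∀ σ, c σ ^ n = 1
  finite : TrivialAtPrimes k[X] c
  infinite : TrivialOver (CompInf k K) c

/-- The Selmer group `Sel(J, n)` in `H ^ 1 (K, J[n])` (as a set): the classes of these cocycles. -/
def Selmer (n : ℕ) : Type :=
  Quot fun c c' : {c : Cochain F // SelmerCocycle k F n c} =>
    ∃ P : J F (SeparableClosure K), P ^ n = 1 ∧ ∀ σ, c.1 σ = c'.1 σ * (mapJ F σ.toAlgHom P / P)

/-- The binary logarithm of the order of `Sel(J, 2)`. -/
noncomputable def dim : ℕ := Nat.log 2 (Nat.card (Selmer k F 2))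

/-- `J(K)` has no points of order two and, for all `l`, the group `Sel(J, 2 ^ l)` is finite with at most
`2 ^ (l d)` elements, `2 ^ d = #Sel(J, 2)`. -/
structure Bounded : Prop where
  torsion : ∀ P : J F K, P ^ 2 = 1 → P = 1
  order : Nat.card (Selmer k F 2) = 2 ^ dim k F
  finite : ∀ l : ℕ, Finite (Selmer k F (2 ^ l))
  le : ∀ l : ℕ, Nat.card (Selmer k F (2 ^ l)) ≤ 2 ^ (l * dim k F)

/-- All the groups are zero: `J(K)` is uniquely divisible by two; the 2-primary part of the group of the
classes in `H ^ 1 (K, J)` which are zero over the completions at all maximal ideals of `k[t]` is zero; and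
every continuous cocycle with values in `J[2 ^ l]` whose class in `H ^ 1 (K, J)` is zero over these
completions is the coboundary of an element of `J[2 ^ l]`, for all `l`. -/
structure Zero : Prop where
  points : UniquelyTwoDivisible F
  sha : ShaTwoTrivial F k[X]
  selmer : ∀ (l : ℕ) (c : Cochain F), Cocycle c → (∀ σ, c σ ^ 2 ^ l = 1) → TrivialAtPrimes k[X] c →
    ∃ P : J F (SeparableClosure K), P ^ 2 ^ l = 1 ∧ ∀ σ, c σ = mapJ F σ.toAlgHom P / P

end groups

section statements

variable {k : Type} [Field k] (K : Type) [Field K] [Algebra k[X] K] [IsFractionRing k[X] K] {n : ℕ}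

/-- The equations `y ^ 2 = F_i(x)` of the `n` curves `D y ^ 2 = f_i(x)` over `K = k(t)`, whose product is
the generic fibre of the varieties `X`. -/
noncomputable def fibres (f : Fin n → k[X][X]) (D : k[X]) : Fin n → K[X] := fun i => twist K (f i) D

/-- The numbers `d_i(D)`, `#Sel(J_i, 2) = 2 ^ (d_i(D))`. -/
noncomputable def dims (f : Fin n → k[X][X]) (D : k[X]) (i : Fin n) : ℕ := dim k (fibres K f D i)

variable (g : Fin n → ℕ) (f : Fin n → k[X][X]) (u : k)

/-- The mean of `F` over the twists of degree `m` tends to `l`. -/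
def MeanTendsTo (F : k[X] → ℝ) (l : ℝ) : Prop :=
  Tendsto (fun m => (∑ᶠ D ∈ Twists g f u m, F D) / ((Twists g f u m).ncard : ℝ)) atTop (𝓝 l)

/-- The vector `d(D)` has the value `d` for the proportion `α(d_1) ⋯ α(d_n)` of the twists. -/
def HasLaw : Prop :=
  ∀ d : Fin n → ℕ, Tendsto (fun m => (({D ∈ Twists g f u m | dims K f D = d} : Set k[X]).ncard : ℝ) /
    ((Twists g f u m).ncard : ℝ)) atTop (𝓝 (∏ i, alpha (d i)))

/-- The means of the functions of exponential growth of `d(D)`. -/
def HasMeans : Prop :=
  ∀ φ : (Fin n → ℕ) → ℝ, (∃ C y : ℝ, ∀ d, |φ d| ≤ C * y ^ (∑ i, d i)) →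
    MeanTendsTo g f u (fun D => φ (dims K f D)) (∑' d : Fin n → ℕ, φ d * ∏ i, alpha (d i))

/-- The theorem for `f_1, ..., f_n` and the leading coefficient `u`. -/
structure Statement : Prop where
  many : ∃ c : ℝ, 0 < c ∧ ∀ᶠ m : ℕ in atTop,
    c * (Nat.card k : ℝ) ^ m ≤ ((Twists g f u m).ncard : ℝ)
  each : ∀ (m : ℕ), ∀ D ∈ Twists g f u m, ∀ i, Bounded k (fibres K f D i)
  often : ∀ᶠ m : ℕ in atTop, (0.2097 : ℝ) ^ n * ((Twists g f u m).ncard : ℝ) ≤
    (({D ∈ Twists g f u m | ∀ i, Zero k (fibres K f D i)} : Set k[X]).ncard : ℝ)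
  means : HasMeans K g f u
  law : HasLaw K g f u
  average : MeanTendsTo g f u (fun D => ((∑ i, dims K f D i : ℕ) : ℝ))
    (n * ∑' d : ℕ, (d : ℝ) * alpha d)

end statements

/-- A positive proportion of the polynomials `f` of genus `g` and height `2 N` is in the family and has
discriminant prime to `Δ`, as `N → ∞`. -/
def PositiveProportion (g : ℕ) {k : Type} [Field k] (Δ : k[X]) : Prop :=
  ∃ c : ℝ, 0 < c ∧ ∀ᶠ N : ℕ in atTop, 0 < {f : k[X][X] | HasHeight g (2 * N) f}.ncard ∧
    c * ({f : k[X][X] | HasHeight g (2 * N) f}.ncard : ℝ) ≤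
      ({f : k[X][X] | InFamily g N f ∧ IsCoprime Δ (discriminant g f)}.ncard : ℝ)

/-- The sum of the means. -/
theorem mean_sum {k : Type} [Field k] [Finite k] {n : ℕ} {g : Fin n → ℕ} {f : Fin n → k[X][X]} {u : k}
    (F : Fin n → k[X] → ℝ) (l : ℝ) (h : ∀ i, MeanTendsTo g f u (F i) l) :
    MeanTendsTo g f u (fun D => ∑ i, F i D) (n * l) := by
  have h1 : Tendsto (fun m => ∑ i : Fin n, (∑ᶠ D ∈ Twists g f u m, F i D) /
      ((Twists g f u m).ncard : ℝ)) atTop (𝓝 (∑ _i : Fin n, l)) := tendsto_finsetSum _ fun i _ => h i
  rw [Finset.sum_const, Finset.card_univ, Fintype.card_fin, nsmul_eq_mul] at h1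
  refine h1.congr fun m => ?_
  have hfin : (Twists g f u m).Finite := (Run7.h875.TS.fin_deg k m).subset fun D hD => hD.2.1
  rw [← Finset.sum_div]
  congr 1
  rw [finsum_mem_eq_finite_toFinset_sum _ hfin, Finset.sum_comm]
  exact Finset.sum_congr rfl fun i _ => finsum_mem_eq_finite_toFinset_sum _ hfin

/-- Let `k` be a finite field of odd characteristic with `q` elements, `K = k(t)`.
(I) Let `f_1, ..., f_n` be polynomials of the families of genus `g_i ≥ 1` and height `2 N_i`, `N_i ≥ 1`
(monic of degree `2 g_i + 1` over `k[t]` without next term, squarefree discriminant, irreducible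
reduction at infinity) with pairwise coprime discriminants, and `u ≠ 0` in `k`. For `D` in `Twists`
(squarefree of degree `m` with leading coefficient `u`, prime to the discriminants) let `J_i` be the
Jacobian of `D y ^ 2 = f_i(x)` over `K`. Then
(many) there are at least `c q ^ m` such `D`, `c > 0`;
(each) `J_i(K)` has no points of order two, `#Sel(J_i, 2) = 2 ^ (d_i)`, and `Sel(J_i, 2 ^ l)` has at most
`2 ^ (l d_i)` elements for all `l`;
(often) for all large `m` for at least `0.2097 ^ n` of the `D` all the groups `Sel(J_i, 2 ^ l)` are zero,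
`J_i(K)` is uniquely divisible by two and the 2-primary part of the Tate-Shafarevich group of `J_i` is
zero, for all `i`;
(means) the average over the `D` of every function `φ` of exponential growth of `(d_1, ..., d_n)` tends to
its expectation for the product of the laws of Poonen and Rains;
(law) in particular the proportion of the `D` with a given vector tends to `α(d_1) ⋯ α(d_n)`;
(average) the average of `d_1 + ... + d_n` tends to `n` times the expectation of the law.
(II) This expectation is `1.2645` up to `0.0001`.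
(III) If the characteristic is larger than `2 g + 1`, `g ≥ 1` and `Δ ≠ 0`, a positive proportion of
all `f` of genus `g` and height `2 N` is in the family and has discriminant prime to `Δ`. -/
theorem result (k : Type) [Field k] [Finite k] (h2 : (2 : k) ≠ 0)
    (K : Type) [Field K] [Algebra k[X] K] [IsFractionRing k[X] K] :
    (∀ (n : ℕ), 1 ≤ n → ∀ (g N : Fin n → ℕ), (∀ i, 1 ≤ g i) → (∀ i, 1 ≤ N i) →
      ∀ f : Fin n → k[X][X], (∀ i, InFamily (g i) (N i) (f i)) →
      (∀ i j, i ≠ j → IsCoprime (discriminant (g i) (f i)) (discriminant (g j) (f j))) →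
      ∀ u : k, u ≠ 0 → Statement K g f u) ∧
    |∑' d : ℕ, (d : ℝ) * alpha d - 1.2645| < 0.0001 ∧
    ∀ g : ℕ, 1 ≤ g → ((2 * g + 1).factorial : k) ≠ 0 → ∀ Δ : k[X], Δ ≠ 0 →
      PositiveProportion g Δ := by
  refine ⟨fun n hn g N hg hN f hf hc u hu => ?_, Run7.h908.JP.Fib.mean_value,
    fun g hg hp Δ hΔ => Run7.h908.JP.Fib.many g hg hp Δ hΔ⟩
  haveI : Nonempty (Fin n) := ⟨⟨0, hn⟩⟩
  have hF : Run7.h784.JP.JF g N (fun i => atInfinity (g i) (2 * N i) (f i)) f :=
    ⟨h2, fun i => (hf i).fm (hg i) (hN i) h2, hc⟩
  have hTw : ∀ m, Twists g f u m = Run7.h784.JP.TwJ g f u m := fun m => rfl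
  have hsel : ∀ (F : K[X]) (l : ℕ), Nonempty (Selmer k F l ≃
      Run7.h886.PL.SelN F l (Run7.h286.PLC.AllPl k K)) := fun F l =>
    ⟨Quot.congr (Equiv.subtypeEquivRight fun c =>
      ⟨fun h => ⟨h.cocycle, h.torsion, Run7.h886.PL.loc_iff.2 ⟨h.finite, h.infinite⟩⟩,
        fun h => ⟨h.coc, h.tor, (Run7.h886.PL.loc_iff.1 h.loc).1,
          (Run7.h886.PL.loc_iff.1 h.loc).2⟩⟩) fun c c' => Iff.rfl⟩
  have hsel2 : ∀ F : K[X], Nat.card (Selmer k F 2) =
      Nat.card (Run7.h286.PLC.SelH F (Run7.h286.PLC.AllPl k K)) := fun F => by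
    obtain ⟨e⟩ := hsel F 2
    rw [Nat.card_congr e, Run7.h886.PL.card_selN]
  have hone : ∀ (m : ℕ), ∀ D ∈ Twists g f u m, ∀ i,
      Nat.card (Selmer k (twist K (f i) D) 2) = 2 ^ Run7.h286.PL.rkJ K ((f i).scaleRoots D) ∧
      (∀ P : J (twist K (f i) D) K, P ^ 2 = 1 → P = 1) ∧
      (Run7.h286.PL.rkJ K ((f i).scaleRoots D) = 0 → Zero k (twist K (f i) D)) := by
    intro m D hD i
    obtain ⟨t1, t2, t3, t4⟩ := Run7.h886.PL.one K hF hu hD i
    exact ⟨(hsel2 _).trans t1, t2, fun h0 => ⟨(t4 h0).1, (t4 h0).2.1, (t4 h0).2.2⟩⟩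
  have hdim : ∀ (m : ℕ), ∀ D ∈ Twists g f u m, ∀ i,
      dims K f D i = Run7.h286.PL.rkJ K ((f i).scaleRoots D) := by
    intro m D hD i
    unfold dims dim fibres
    rw [(hone m D hD i).1, Nat.log_pow (by norm_num)]
  have hmeans : HasMeans K g f u := fun φ hφ =>
    Run7.h886.PL.mean_of K hF hu (dims K f) hdim φ hφ
  have hfin : ∀ m, (Twists g f u m).Finite := fun m => Run7.h784.JP.twJ_fin hF hu m
  obtain ⟨c, hc0, hc1⟩ := Run7.h886.PL.size_one hF hu
  refine ⟨⟨c, hc0, hc1⟩, fun m D hD i => ?_, ?_, hmeans, fun d => ?_, ?_⟩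
  · obtain ⟨e2⟩ := hsel (twist K (f i) D) 2
    have h5 := (hone m D hD i).1
    have hd : dim k (twist K (f i) D) = Run7.h286.PL.rkJ K ((f i).scaleRoots D) := hdim m D hD i
    have hfin2 : Finite (Run7.h886.PL.SelN (twist K (f i) D) 2 (Run7.h286.PLC.AllPl k K)) := by
      refine Nat.finite_of_card_ne_zero ?_
      rw [← Nat.card_congr e2, h5]
      exact pow_ne_zero _ (by norm_num)
    have hgd : Pool.Agent.Y160.SE.Good 2 (-1 : K) (twist K (f i) D) :=
      Run7.h886.PL.good_tw K (hF.fm i) hD.2.2.1.ne_zero
    show Bounded k (twist K (f i) D)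
    refine ⟨(hone m D hD i).2.1, by rw [hd]; exact h5, fun l => ?_, fun l => ?_⟩
    · obtain ⟨e⟩ := hsel (twist K (f i) D) (2 ^ l)
      obtain ⟨h6, h7⟩ := Run7.h886.PL.card_pow hgd (Run7.h286.PLC.AllPl k K) hfin2 l
      exact Finite.of_equiv _ e.symm
    · obtain ⟨e⟩ := hsel (twist K (f i) D) (2 ^ l)
      obtain ⟨h6, h7⟩ := Run7.h886.PL.card_pow hgd (Run7.h286.PLC.AllPl k K) hfin2 l
      rw [Nat.card_congr e, hd]
      refine h7.trans (le_of_eq ?_)
      rw [← Nat.card_congr e2, h5, ← pow_mul, mul_comm]
  · filter_upwards [Run7.h886.PL.zero_prop K Run7.h886.PL.jfinm hF hu] with m hm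
    rw [Fintype.card_fin] at hm
    refine hm.trans ?_
    have hsub : ({D ∈ Run7.h784.JP.TwJ g f u m |
        ∀ i, Run7.h286.PL.rkJ K ((f i).scaleRoots D) = 0} : Set k[X]) ⊆
        {D ∈ Twists g f u m | ∀ i, Zero k (fibres K f D i)} := fun D hD =>
      ⟨hD.1, fun i => (hone m D hD.1 i).2.2 (hD.2 i)⟩
    exact_mod_cast Set.ncard_le_ncard hsub ((hfin m).subset fun D hD => hD.1)
  · have h := hmeans (fun x => if x = d then (1 : ℝ) else 0) ⟨1, 1, fun x => by
      split_ifs <;> simp⟩
    have h1 : ∑' x : Fin n → ℕ, (if x = d then (1 : ℝ) else 0) * ∏ i, alpha (x i) =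
        ∏ i, alpha (d i) := by
      rw [tsum_eq_single d (fun x hx => by rw [if_neg hx, zero_mul]), if_pos rfl, one_mul]
    rw [h1] at h
    refine Tendsto.congr (fun m => ?_) h
    rw [Run7.h784.JPH.ncard_sep (hfin m)]
    congr 1
    refine finsum_mem_congr rfl fun D _ => ?_
    by_cases hh : dims K f D = d
    · rw [if_pos hh, if_pos hh]
    · rw [if_neg hh, if_neg hh]
  · have h := mean_sum (g := g) (f := f) (u := u) (fun i D => ((dims K f D i : ℕ) : ℝ))
      (∑' d : ℕ, (d : ℝ) * alpha d) fun i => ?_
    · refine Tendsto.congr (fun m => ?_) h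
      congr 1
      refine finsum_mem_congr rfl fun D _ => ?_
      push_cast
      rfl
    · have h3 := hmeans (fun d => (d i : ℝ)) ⟨1, 2, fun d => by
        rw [one_mul, abs_of_nonneg (Nat.cast_nonneg _)]
        have h4 : d i ≤ ∑ i, d i := Finset.single_le_sum (f := d) (fun j _ => Nat.zero_le _)
          (Finset.mem_univ i)
        have h5 : d i ≤ 2 ^ (∑ i, d i) := h4.trans (Nat.lt_two_pow_self).le
        exact_mod_cast h5⟩
      rw [Run7.h908.JP.Fib.tsum_coord i] at h3
      exact h3

end Pool.Agent.Results.MP_40dc3c_ag.ModelsOfFibreProducts
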