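import Pool.Agent.Run7.h735.TP.MainPow

/-!
# The Tate conjecture for powers of double coverings of projective space, by two places

Let `W` be a Weil cohomology theory (for instance `2`-adic cohomology with coefficients in the algebraic closure of
`ℚ_2`) on a class of smooth projective varieties over the algebraic closure of a finitely generated field, `Γ` the
Galois group and `χ` its action on the Tate twists.

Let `X : w ^ 2 = F` be a double covering of the projective space of even dimension `2 d`, or a resolution of such a
covering, and let `V` be the representation of `Γ` over `ℚ_2` on the part of `H^(2 d)(X)(d)` which is not invariant under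
the involution of the covering (and orthogonal to the exceptional classes).  So the cohomology of `X` is the orthogonal
sum of a space spanned by classes of cycles and of `V`.  At two places with odd residue characteristics let
`P₁` and `P₂` be the numerators of the zeta functions of the branch loci `F = 0` (for `d = 1`, of the branch curves).

**Theorem.**  Suppose that

* `P₁(1)` and `P₂(1)` are odd, and the sums of the coefficients of `P₁` and of `P₂` in the degrees `g - 1, g - 3, …` have
  different parity, where `dim V = 2 g + 1`;
* at the first place the characteristic polynomial of the Frobenius element on `V` is `(X - ε) R` with `ε = 1` or `ε = -1`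
  and an irreducible polynomial `R`, and no quotient of two of its roots is a root of unity;
* the polynomial has an isolated root: there is a root `a` such that `a δ ~ β γ` for roots `β, γ, δ` only if `β = a` or
  `γ = a` or `a δ ~ 1`, and such that it is independent of the eigenvalues on the cohomology of the other varieties (`~`
  is the equality up to a root of unity).

Then the Tate conjecture for cycles of all codimensions for products of powers `X_i ^ (n_i + 1)`, `n_i + 1 < dim V_i`, of
such `X_i` and of an arbitrary variety `Z` is equivalent to the Tate conjecture for `Z`; for instance it holds for `X ^ n`,
`n < dim V`.

At the second place ONLY the polynomial `P₂` of the branch locus modulo `2` is needed -- no information on `X` or on the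
characteristic polynomial on `V`.  In the theorem `TwoFrobeniusPolynomials` of the starting files, which is used in the
proof, the hypotheses are that the characteristic polynomial at the second place is `(X - ε₂) R₂` with
`R₂(1) R₂(-1) ≠ 0`, and that `R₁(1) R₁(-1) R₂(1) R₂(-1)` is not a square.  Here this is proved: the dimension of `V` is odd, so
that every isometry has the eigenvalue `1` or `-1`; the characteristic polynomial of `q ^ d φ` on `V` is integral and
congruent to `(1 - T) P(T)` (reversed) modulo `2`, so that for EVERY factorization `(X - ε) R` of the characteristic
polynomial of `φ` the numbers `R(± 1)` are not zero; and `R(1) R(-1)` is, up to a square, an integer `δ` with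
`(-1) ^ g δ ≡ 1 + 4 s` modulo `8`, where `s` is the sum of the coefficients of `P` in the degrees `g - 1, g - 3, …`
(`Run7.h735.TP.eps_facts`; this is a version for given factorizations of the lemma `place_facts` of the starting files).
So the product for two places with different parities is congruent to `5` modulo `8` up to a square, and it is not a
square in `ℚ_2`.

An example (numbers of points computed outside of Lean) is the surface of general type of geometric genus `3` in the
description of the starting file `TwoFrobeniusPolynomials`, with `dim V = 21` and the places `3` and `5`.  For the Tate
conjecture for `X` itself, over fields `ℚ_ℓ` and without the irreducibility, see the hand-in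
`MP_0fca13_ag.DoubleCoversTwoPlaces`.
-/

set_option autoImplicit false

universe u

namespace Pool.Agent.Results.MP_40dc3c_ag.PowersOfDoubleCovers

open Pool.Agent.H914 Pool.Agent.TH125.Gal Pool.Agent.Y130 Pool.Agent.Y134.TF
  Pool.Agent.Run7.h735.TP

/-- **The Tate conjecture for powers of double coverings of projective space, by two places.** -/
theorem result {k : Type u} [Field k] {𝒱 : VarClass k} {ops : CycleOps 𝒱}
    (W : WeilCohomology.{u, 0} ops) [IsAlgClosed W.K] {Γ : Type} [Group Γ] (χ : Γ →* W.Kˣ)
    {ι : Type} (S : ι → PVar W Γ) (Z : GVar W Γ)
    (h : ∀ i, PowerCover χ (S i) (otherEig (fun j => (S j).toGVar) Z i)) (I : Set ι)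
    (Y : GVar W Γ) (hY : PTower (fun i => (S i).toGVar) Z (fun i n => n + 1 < (S i).rank) I Y) :
    TateConjecture χ Y ↔ TateConjecture χ Z :=
  tate_two (fun i => (h i).two) hY

end Pool.Agent.Results.MP_40dc3c_ag.PowersOfDoubleCovers
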